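import Pool.Agent.Work.MP_db9399_lt_helper21.Glue

/-!
# MP_db9399, THEOREM LT, block DENSE: very dense regular graphs of even order
-/

set_option autoImplicit false

namespace Pool.Agent.Work.MP_db9399_lt.helper21

open Finset Classical
open Pool.Agent.Work.MP_db9399_all (nb)
open Pool.Agent.Work.MP_db9399_nc (nn PEC Mts mem_nb mem_nn)

universe u

/-- double counting of the pairs between the two sides -/
theorem cross_count {V : Type u} [Fintype V] (r : V → V → Prop) (hr : ∀ v w, r v w → r w v)
    (sd : V → Bool) :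
    ∑ v ∈ univ.filter (fun v => sd v = true),
      (univ.filter (fun w => r v w ∧ sd v ≠ sd w)).card =
    ∑ v ∈ univ.filter (fun v => sd v = false),
      (univ.filter (fun w => r v w ∧ sd v ≠ sd w)).card := by
  have h1 := Finset.sum_card_bipartiteAbove_eq_sum_card_bipartiteBelow
    (s := univ.filter (fun v => sd v = true)) (t := univ.filter (fun v => sd v = false)) r
  have e1 : ∀ v ∈ univ.filter (fun v => sd v = true),
      (univ.filter (fun w => r v w ∧ sd v ≠ sd w)).card =
      (Finset.bipartiteAbove r (univ.filter (fun v => sd v = false)) v).card := by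
    intro v hv
    rw [Finset.mem_filter] at hv
    congr 1
    ext w
    simp only [Finset.mem_filter, Finset.mem_univ, true_and, Finset.bipartiteAbove, hv.2]
    cases sd w <;> simp
  have e2 : ∀ v ∈ univ.filter (fun v => sd v = false),
      (univ.filter (fun w => r v w ∧ sd v ≠ sd w)).card =
      (Finset.bipartiteBelow r (univ.filter (fun v => sd v = true)) v).card := by
    intro v hv
    rw [Finset.mem_filter] at hv
    congr 1
    ext w
    simp only [Finset.mem_filter, Finset.mem_univ, true_and, Finset.bipartiteBelow, hv.2]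
    have hsym : r v w ↔ r w v := ⟨hr v w, hr w v⟩
    rw [hsym]
    cases sd w <;> simp
  rw [Finset.sum_congr rfl e1, Finset.sum_congr rfl e2]
  exact h1

theorem stmt_DENSE (hA : Stmt_DRA.{u}) (hB : Stmt_DRB.{u}) (hC : Stmt_DRC.{u})
    (hK : Stmt_KOEN.{u}) : Stmt_DENSE.{u} := by
  intro V _ G κ p Cl hV hdeg hdn hCl
  by_cases hp : p = 0
  · have h0 : Fintype.card V = 0 := by rw [hV, hp]
    rw [Fintype.card_eq_zero_iff] at h0
    exact ⟨fun _ _ => 0, fun _ _ => rfl, fun v => h0.elim v, fun v => h0.elim v⟩
  have hp1 : 1 ≤ p := Nat.one_le_iff_ne_zero.mpr hp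
  have hVpos : 0 < Fintype.card V := by omega
  obtain ⟨v0⟩ := Fintype.card_pos_iff.mp hVpos
  obtain ⟨n, hn⟩ : ∃ n, 2 * p = κ + 1 + n := by
    have h1 := card_V G v0
    rw [hdeg v0] at h1
    exact ⟨2 * p - (κ + 1), by omega⟩
  have hn9 : 10 ^ 9 * (n + 1) ≤ p := by
    have : 2 * p - κ = n + 1 := by omega
    rw [this] at hdn
    exact hdn
  have hnn : ∀ v, (nn G univ v).card = n := by
    intro v
    have h1 := card_V G v
    rw [hdeg v] at h1
    omega
  obtain ⟨sd, E, M, hbal, hEC, hEp, hM, hperf, hin, hcr⟩ := hA G κ p n Cl hV hdeg hn hn9 hCl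
  -- the palette `P0`
  have hP0 : ∃ P0 ⊆ Cl \ E, P0.card = p / 50 := by
    refine Finset.exists_subset_card_eq ?_
    rw [Finset.card_sdiff_of_subset hEC]
    norm_num at hn9
    omega
  obtain ⟨P0, hP0C, hP0c⟩ := hP0
  have hP0E : ∀ b ∈ P0, b ∉ E := fun b hb => (Finset.mem_sdiff.mp (hP0C hb)).2
  have hsw : ∀ b ∈ E, ∀ v w, M b v = w → M b w = v := by
    intro b hb v w h
    rw [← h]
    exact hM.inv b hb v
  -- the graph `Y`
  let Y : SimpleGraph V :=
    { Adj := fun v w => G.Adj v w ∧ sd v = sd w ∧ ∀ b ∈ E, M b v ≠ w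
      symm := ⟨fun v w h => ⟨h.1.symm, h.2.1.symm, fun b hb h' => h.2.2 b hb (hsw b hb w v h')⟩⟩
      loopless := ⟨fun v h => G.loopless.irrefl v h.1⟩ }
  have hYa : ∀ v w, Y.Adj v w ↔ G.Adj v w ∧ sd v = sd w ∧ ∀ b ∈ E, M b v ≠ w :=
    fun v w => Iff.rfl
  have hYd : ∀ v, (nb Y v).card ≤ p / 9000 := by
    intro v
    have h1 := hin v
    have h2 : nb Y v = univ.filter (fun w => G.Adj v w ∧ sd v = sd w ∧ ∀ b ∈ E, M b v ≠ w) := by
      ext w
      rw [mem_nb, hYa, Finset.mem_filter]
      simp
    rw [h2]
    omega
  -- the counts at a vertex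
  have hcount : ∀ v, (nb Y v).card + (E.filter (fun b => sd v = sd (M b v))).card +
      (univ.filter (fun w => G.Adj v w ∧ sd v ≠ sd w)).card = κ := by
    intro v
    have h1 : (univ.filter (fun w => G.Adj v w ∧ sd v = sd w)).card =
        (nb Y v).card + (E.filter (fun b => sd v = sd (M b v))).card := by
      have e1 : univ.filter (fun w => G.Adj v w ∧ sd v = sd w) =
          nb Y v ∪ (E.filter (fun b => sd v = sd (M b v))).image (fun b => M b v) := by
        ext w
        rw [Finset.mem_union, mem_nb, hYa, Finset.mem_image, Finset.mem_filter]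
        constructor
        · rintro ⟨-, hw, hs⟩
          by_cases h2 : ∀ b ∈ E, M b v ≠ w
          · exact Or.inl ⟨hw, hs, h2⟩
          · push Not at h2
            obtain ⟨b, hb, h3⟩ := h2
            exact Or.inr ⟨b, Finset.mem_filter.mpr ⟨hb, by rw [h3]; exact hs⟩, h3⟩
        · rintro (hw | ⟨b, hb, h3⟩)
          · exact ⟨Finset.mem_univ _, hw.1, hw.2.1⟩
          · rw [Finset.mem_filter] at hb
            rw [← h3]
            exact ⟨Finset.mem_univ _, hM.adj b hb.1 v (hperf b hb.1 v), hb.2⟩
      have e2 : Disjoint (nb Y v)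
          ((E.filter (fun b => sd v = sd (M b v))).image (fun b => M b v)) := by
        rw [Finset.disjoint_left]
        intro w hw hw'
        rw [mem_nb, hYa] at hw
        rw [Finset.mem_image] at hw'
        obtain ⟨b, hb, h3⟩ := hw'
        rw [Finset.mem_filter] at hb
        exact hw.2.2 b hb.1 h3
      have e3 : ((E.filter (fun b => sd v = sd (M b v))).image (fun b => M b v)).card =
          (E.filter (fun b => sd v = sd (M b v))).card := by
        refine Finset.card_image_of_injOn ?_
        intro b hb b' hb' hbb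
        rw [Finset.mem_coe, Finset.mem_filter] at hb hb'
        by_contra hne
        exact hM.dis b hb.1 b' hb'.1 hne v (hperf b hb.1 v) hbb
      rw [e1, Finset.card_union_of_disjoint e2, e3]
    have h2 := hdeg v
    have h3 : nb G v = univ.filter (fun w => G.Adj v w ∧ sd v = sd w) ∪
        univ.filter (fun w => G.Adj v w ∧ sd v ≠ sd w) := by
      ext w
      rw [Finset.mem_union, mem_nb, Finset.mem_filter, Finset.mem_filter]
      by_cases h : sd v = sd w <;> simp [h]
    have h4 : Disjoint (univ.filter (fun w => G.Adj v w ∧ sd v = sd w))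
        (univ.filter (fun w => G.Adj v w ∧ sd v ≠ sd w)) := by
      rw [Finset.disjoint_left]
      intro w hw hw'
      rw [Finset.mem_filter] at hw hw'
      exact hw'.2.2 hw.2.2
    rw [h3, Finset.card_union_of_disjoint h4] at h2
    omega
  -- a perfect matching has as many inner vertices on both sides
  have hswap : ∀ b ∈ E, ((univ.filter (fun v => sd v = true)).filter
        (fun v => sd v = sd (M b v))).card =
      ((univ.filter (fun v => sd v = false)).filter (fun v => sd v = sd (M b v))).card := by
    intro b hb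
    have e1 : ∀ β : Bool, ((univ.filter (fun v => sd v = β)).filter
        (fun v => sd v = sd (M b v))).card +
        (univ.filter (fun v => sd v = β ∧ sd (M b v) = !β)).card = p := by
      intro β
      have h1 : (univ.filter (fun v => sd v = β)).card = p := by
        cases β
        · exact hbal.f
        · exact hbal.t
      rw [← Finset.card_filter_add_card_filter_not (s := univ.filter (fun v => sd v = β))
        (fun v => sd v = sd (M b v))] at h1
      rw [← h1]
      congr 2
      ext v
      simp only [Finset.mem_filter, Finset.mem_univ, true_and]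
      constructor
      · rintro ⟨h2, h3⟩
        refine ⟨h2, ?_⟩
        rw [h2, h3]
        cases β <;> simp
      · rintro ⟨h2, h3⟩
        refine ⟨h2, ?_⟩
        rw [h2] at h3
        revert h3
        cases β <;> cases sd (M b v) <;> simp
    have e2 : (univ.filter (fun v => sd v = true ∧ sd (M b v) = !true)).card =
        (univ.filter (fun v => sd v = false ∧ sd (M b v) = !false)).card := by
      refine Finset.card_bij (fun v _ => M b v) ?_ ?_ ?_
      · intro v hv
        rw [Finset.mem_filter] at hv ⊢
        refine ⟨Finset.mem_univ _, by simpa using hv.2.2, ?_⟩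
        rw [hM.inv b hb v]
        simpa using hv.2.1
      · intro v _ w _ h
        have h' := congrArg (M b) h
        rwa [hM.inv b hb v, hM.inv b hb w] at h'
      · intro w hw
        rw [Finset.mem_filter] at hw
        refine ⟨M b w, ?_, hM.inv b hb w⟩
        rw [Finset.mem_filter]
        refine ⟨Finset.mem_univ _, by simpa using hw.2.2, ?_⟩
        rw [hM.inv b hb w]
        simpa using hw.2.1
    have h1 := e1 true
    have h2 := e1 false
    rw [e2] at h1
    omega
  -- equal degree sums
  have hYsum : ∑ v ∈ univ.filter (fun v => sd v = true), (nb Y v).card =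
      ∑ v ∈ univ.filter (fun v => sd v = false), (nb Y v).card := by
    have e1 : ∀ S : Finset V, ∑ v ∈ S, (nb Y v).card +
        ∑ v ∈ S, (E.filter (fun b => sd v = sd (M b v))).card +
        ∑ v ∈ S, (univ.filter (fun w => G.Adj v w ∧ sd v ≠ sd w)).card = S.card * κ := by
      intro S
      rw [← Finset.sum_add_distrib, ← Finset.sum_add_distrib,
        Finset.sum_congr rfl fun v _ => hcount v, Finset.sum_const, smul_eq_mul]
    have e2 : ∑ v ∈ univ.filter (fun v => sd v = true),
          (E.filter (fun b => sd v = sd (M b v))).card =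
        ∑ v ∈ univ.filter (fun v => sd v = false),
          (E.filter (fun b => sd v = sd (M b v))).card := by
      have e3 : ∀ S : Finset V, ∑ v ∈ S, (E.filter (fun b => sd v = sd (M b v))).card =
          ∑ b ∈ E, (S.filter (fun v => sd v = sd (M b v))).card := by
        intro S
        exact Finset.sum_card_bipartiteAbove_eq_sum_card_bipartiteBelow
          (s := S) (t := E) (fun v b => sd v = sd (M b v))
      rw [e3, e3]
      exact Finset.sum_congr rfl fun b hb => hswap b hb
    have e4 := cross_count (fun v w => G.Adj v w) (fun v w h => h.symm) sd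
    have h1 := e1 (univ.filter (fun v => sd v = true))
    have h2 := e1 (univ.filter (fun v => sd v = false))
    rw [hbal.t] at h1
    rw [hbal.f] at h2
    omega
  -- DRB
  obtain ⟨K, hKm, hKall, hKc⟩ := hB Y sd p (p / 9000) P0 hbal (fun v w h => h.2.1) hYd hYsum
    (by rw [hP0c]; norm_num at hn9; omega) (by norm_num at hn9 ⊢; omega)
  have hYG : Y ≤ G := fun v w h => h.1
  have hKG : Mts G P0 K := ⟨hKm.inv, fun b hb v h => (hKm.adj b hb v h).1, hKm.dis⟩
  -- DRC
  let L : SimpleGraph V :=
    { Adj := fun v w => G.Adj v w ∧ sd v ≠ sd w ∧ ∃ b ∈ E, M b v = w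
      symm := ⟨fun v w ⟨h1, h2, b, hb, h3⟩ => ⟨h1.symm, fun h => h2 h.symm, b, hb,
        hsw b hb v w h3⟩⟩
      loopless := ⟨fun v h => G.loopless.irrefl v h.1⟩ }
  have hLa : ∀ v w, L.Adj v w ↔ G.Adj v w ∧ sd v ≠ sd w ∧ ∃ b ∈ E, M b v = w :=
    fun v w => Iff.rfl
  have hLd : ∀ v, (nb L v).card ≤ p / 1000 := by
    intro v
    have h1 : nb L v ⊆ (E.filter (fun b => sd (M b v) ≠ sd v)).image (fun b => M b v) := by
      intro w hw
      rw [mem_nb, hLa] at hw
      obtain ⟨-, h2, b, hb, h3⟩ := hw
      rw [Finset.mem_image]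
      refine ⟨b, Finset.mem_filter.mpr ⟨hb, ?_⟩, h3⟩
      rw [h3]
      exact fun h => h2 h.symm
    have h2 := (Finset.card_le_card h1).trans Finset.card_image_le
    have h3 := hcr v
    omega
  obtain ⟨M2, hM2, hM2p, hM2K, hM2L⟩ := hC G L sd p (n + p / 1000 + p / 50) P0 K hbal (by
      intro v
      have h1 : (univ.filter (fun w => sd w ≠ sd v ∧ ¬ G.Adj v w)).card ≤ n := by
        rw [← hnn v]
        refine Finset.card_le_card ?_
        intro w hw
        rw [Finset.mem_filter] at hw
        rw [mem_nn]
        exact ⟨Finset.mem_univ _, fun h => hw.2.1 (by rw [h]), hw.2.2⟩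
      have h2 := hLd v
      rw [hP0c]
      omega) hKG (by
      intro b hb v
      by_cases h : K b v = v
      · rw [h]
      · exact (hKm.adj b hb v h).2.1.symm) (fun b hb => (hKc b hb).1) (by
      intro b hb
      have h1 := (hKc b hb).2
      norm_num at hn9
      omega)
  -- the union of the matchings
  have hU := mts_union (E := E) (P := P0) hM hM2 (by
    intro b hb b' hb' v h1 h2
    by_cases h3 : K b' v = v
    · obtain ⟨h4, h5⟩ := hM2L b' hb' v h3
      refine h5 ((hLa _ _).mpr ⟨hM2.adj b' hb' v (hM2p b' hb' v), fun h => h4 h.symm, b, hb, h2⟩)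
    · have h4 := hM2K b' hb' v h3
      have h5 := hKm.adj b' hb' v h3
      rw [← h4] at h5
      exact h5.2.2 b hb h2)
  set MM : ℕ → V → V := fun b => if b ∈ E then M b else M2 b with hMM
  have hMMp : ∀ b ∈ E ∪ P0, ∀ v, MM b v ≠ v := by
    intro b hb v
    by_cases hbE : b ∈ E
    · simp only [hMM, if_pos hbE]
      exact hperf b hbE v
    · simp only [hMM, if_neg hbE]
      refine hM2p b ?_ v
      rcases Finset.mem_union.mp hb with h | h
      · exact absurd h hbE
      · exact h
  have hEP : E ∪ P0 ⊆ Cl := by
    refine Finset.union_subset hEC ?_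
    exact hP0C.trans Finset.sdiff_subset
  -- the rest
  obtain ⟨t, ht⟩ := hK (rg G (E ∪ P0) MM) sd (Cl \ (E ∪ P0)) (by
      intro v w hvw hs
      rw [rg_adj hU] at hvw
      have hY : Y.Adj v w := by
        refine (hYa v w).mpr ⟨hvw.1, hs, ?_⟩
        intro b hb h
        refine hvw.2 b (Finset.mem_union_left _ hb) ?_
        simp only [hMM, if_pos hb]
        exact h
      obtain ⟨b, hb, h1⟩ := hKall v w hY
      have hne : K b v ≠ v := by
        rw [h1]
        exact fun h => G.loopless.irrefl v (h ▸ hvw.1)
      refine hvw.2 b (Finset.mem_union_right _ hb) ?_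
      simp only [hMM, if_neg (hP0E b hb)]
      rw [hM2K b hb v hne, h1]) (by
      intro v
      have h1 := deg_rg hU v
      have h2 : (E ∪ P0).filter (fun b => MM b v ≠ v) = E ∪ P0 :=
        Finset.filter_true_of_mem fun b hb => hMMp b hb v
      rw [h2, hdeg v] at h1
      rw [Finset.card_sdiff_of_subset hEP, hCl]
      omega)
  obtain ⟨t', ht', -⟩ := glue hU ht Finset.disjoint_sdiff
  refine ⟨t', ?_⟩
  rwa [Finset.union_sdiff_of_subset hEP] at ht'

end Pool.Agent.Work.MP_db9399_lt.helper21
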