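import Pool.Agent.Work.MP_db9399_lt_helper21.Glue

/-!
# MP_db9399, THEOREM LT: one new vertex; simple facts about `FD`
-/

set_option autoImplicit false
set_option linter.unusedSectionVars false
set_option linter.unusedSimpArgs false

namespace Pool.Agent.Work.MP_db9399_lt.helper21

open Finset Classical
open Pool.Agent.Work.MP_db9399_all (nb)
open Pool.Agent.Work.MP_db9399_nc (nn PEC Mts mem_nb mem_nn)

universe u

variable {V : Type u} [Fintype V]

/-- `R` with a new vertex `none` joined to `B` -/
def ext1 (R : SimpleGraph V) (B : Finset V) : SimpleGraph (Option V) where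
  Adj x y := match x, y with
    | some v, some w => R.Adj v w
    | none, some v => v ∈ B
    | some v, none => v ∈ B
    | none, none => False
  symm := ⟨by
    intro x y h
    cases x <;> cases y
    · exact h
    · exact h
    · exact h
    · exact SimpleGraph.Adj.symm h⟩
  loopless := ⟨by
    intro x h
    cases x
    · exact h
    · exact R.loopless.irrefl _ h⟩

theorem ext1_ss (R : SimpleGraph V) (B : Finset V) (v w : V) :
    (ext1 R B).Adj (some v) (some w) ↔ R.Adj v w := Iff.rfl

theorem ext1_ns (R : SimpleGraph V) (B : Finset V) (v : V) :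
    (ext1 R B).Adj none (some v) ↔ v ∈ B := Iff.rfl

theorem ext1_sn (R : SimpleGraph V) (B : Finset V) (v : V) :
    (ext1 R B).Adj (some v) none ↔ v ∈ B := Iff.rfl

theorem ext1_nn (R : SimpleGraph V) (B : Finset V) :
    (ext1 R B).Adj none none ↔ False := Iff.rfl

theorem nb_ext1_none (R : SimpleGraph V) (B : Finset V) :
    (nb (ext1 R B) none).card = B.card := by
  have h1 : nb (ext1 R B) none = B.image some := by
    ext x
    rw [mem_nb, Finset.mem_image]
    cases x with
    | none => simp [ext1_nn]
    | some v => simp [ext1_ns]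
  rw [h1]
  exact Finset.card_image_of_injective _ (Option.some_injective V)

theorem nb_ext1_some (R : SimpleGraph V) (B : Finset V) (v : V) :
    (nb (ext1 R B) (some v)).card = (nb R v).card + if v ∈ B then 1 else 0 := by
  by_cases hv : v ∈ B
  · have h1 : nb (ext1 R B) (some v) = insert none ((nb R v).image some) := by
      ext x
      rw [mem_nb, Finset.mem_insert, Finset.mem_image]
      cases x with
      | none => simp [ext1_sn, hv]
      | some w => simp [ext1_ss, mem_nb]
    rw [h1, Finset.card_insert_of_notMem (by simp), if_pos hv]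
    congr 1
    exact Finset.card_image_of_injective _ (Option.some_injective V)
  · have h1 : nb (ext1 R B) (some v) = (nb R v).image some := by
      ext x
      rw [mem_nb, Finset.mem_image]
      cases x with
      | none => simp [ext1_sn, hv]
      | some w => simp [ext1_ss, mem_nb]
    rw [h1, if_neg hv]
    exact Finset.card_image_of_injective _ (Option.some_injective V)

theorem pec_ext1 {R : SimpleGraph V} {B : Finset V} {C : Finset ℕ}
    {t : Option V → Option V → ℕ} (h : PEC (ext1 R B) C t) :
    PEC R C (fun v w => t (some v) (some w)) := by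
  refine ⟨fun v w => h.sym _ _, fun v w hvw => h.mem _ _ ((ext1_ss R B v w).mpr hvw), ?_⟩
  intro v w hw w' hw' heq
  rw [Finset.mem_coe, mem_nb] at hw hw'
  have h1 := h.inj (some v) (x₁ := some w) (x₂ := some w')
    (by rw [Finset.mem_coe, mem_nb]; exact hw) (by rw [Finset.mem_coe, mem_nb]; exact hw') heq
  exact Option.some_injective V h1

theorem mts_id (G : SimpleGraph V) (E : Finset ℕ) : Mts G E (fun _ => id) :=
  ⟨fun _ _ _ => rfl, fun _ _ _ h => absurd rfl h, fun _ _ _ _ _ _ h => absurd rfl h⟩

theorem nb_bot (v : V) : (nb (⊥ : SimpleGraph V) v).card = 0 := by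
  rw [Finset.card_eq_zero, Finset.eq_empty_iff_forall_notMem]
  intro w hw
  rw [mem_nb] at hw
  exact hw

section fd
variable {R : SimpleGraph V} {Cl O : Finset ℕ} {st : ℕ → V} {W : Finset V}

theorem fd_image (h : FD R Cl O st W) : (O.image st).card = O.card :=
  Finset.card_image_of_injOn h.inj

theorem fd_nn (h : FD R Cl O st W) (v : V) :
    (nn R univ v).card + Cl.card ≤ Fintype.card V + 1 := by
  have h1 := card_V R v
  have h2 := h.deg v
  split_ifs at h2 <;> omega

theorem fd_sum (h : FD R Cl O st W) :
    ∑ v, (nb R v).card + O.card + Fintype.card V = Fintype.card V * Cl.card + W.card := by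
  have h1 : ∑ v : V, ((nb R v).card + (if v ∈ O.image st then 1 else 0) + 1) =
      ∑ v : V, (Cl.card + (if v ∈ W then 1 else 0)) :=
    Finset.sum_congr rfl fun v _ => h.deg v
  rw [Finset.sum_add_distrib, Finset.sum_add_distrib, Finset.sum_add_distrib, Finset.sum_const,
    Finset.sum_const, Finset.sum_ite_mem, Finset.sum_ite_mem, Finset.univ_inter,
    Finset.univ_inter, Finset.sum_const, Finset.sum_const, fd_image h, Finset.card_univ] at h1
  simp only [smul_eq_mul, mul_one] at h1
  exact h1

/-- the numbers -/
theorem fd_num (h : FD R Cl O st W) : Cl.card ≤ Fintype.card V + 1 ∧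
    10 ^ 10 * (2 * W.card + 19) ≤ Fintype.card V ∧
    10 ^ 10 * (Fintype.card V + 2 * W.card + 20 - Cl.card) ≤ Fintype.card V := by
  have h1 := fd_nn h (st 0)
  have h2 := h.dense
  norm_num at h2 ⊢
  refine ⟨by omega, by omega, by omega⟩

end fd

end Pool.Agent.Work.MP_db9399_lt.helper21
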