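import Pool.Agent.Work.MP_db9399_lt_helper21.Ext

/-!
# MP_db9399, THEOREM LT, block FINBE: the last stage, even order, few right colours
-/

set_option autoImplicit false

namespace Pool.Agent.Work.MP_db9399_lt.helper21

open Finset Classical
open Pool.Agent.Work.MP_db9399_all (nb)
open Pool.Agent.Work.MP_db9399_nc (nn PEC Mts mem_nb mem_nn)

universe u

theorem stmt_FINBE (hCOMP : Pool.Agent.Work.MP_db9399_nc.Stmt_COMP.{u}) (hD : Stmt_DENSE.{u})
    (hS : Pool.Agent.Work.MP_db9399_nc.Stmt_STAR.{u}) : Stmt_FINBE.{u} := by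
  intro V _ R Cl O st W h hev hle hOW
  obtain ⟨h1, h2, h3⟩ := fd_num h
  norm_num at h2 h3
  have hOCl : O.card ≤ Cl.card := Finset.card_le_card h.OC
  have hOne : O.Nonempty := by
    rw [← Finset.card_pos]
    omega
  obtain ⟨b0, hb0⟩ := hOne
  have hb0C : b0 ∈ Cl := h.OC hb0
  obtain ⟨O', hO'⟩ : ∃ O' : Finset ℕ, O' = O.erase b0 := ⟨_, rfl⟩
  have hO'm : ∀ b, b ∈ O' ↔ b ≠ b0 ∧ b ∈ O := by
    intro b
    rw [hO', Finset.mem_erase]
  have hO'c : O'.card = O.card - 1 := by rw [hO', Finset.card_erase_of_mem hb0]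
  have hO'C : O' ⊆ Cl := fun b hb => h.OC ((hO'm b).mp hb).2
  have hWn : W.card ≤ Fintype.card V := Finset.card_le_univ W
  have hY : ∃ Y0 ⊆ (univ \ W).erase (st b0), Y0.card = Fintype.card V + 1 - W.card - O.card := by
    refine Finset.exists_subset_card_eq ?_
    have e1 : (univ \ W).card = Fintype.card V - W.card := by
      rw [Finset.card_sdiff_of_subset (Finset.subset_univ _), Finset.card_univ]
    have e2 := Finset.pred_card_le_card_erase (s := univ \ W) (a := st b0)
    omega
  obtain ⟨Y0, hY0, hY0c⟩ := hY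
  have hYW : ∀ v ∈ Y0, v ∉ W := fun v hv =>
    (Finset.mem_sdiff.mp (Finset.mem_of_mem_erase (hY0 hv))).2
  have hYs : st b0 ∉ Y0 := fun hv => Finset.ne_of_mem_erase (hY0 hv) rfl
  obtain ⟨E, hE⟩ : ∃ E : Finset ℕ, E = Cl \ O' := ⟨_, rfl⟩
  have hb0E : b0 ∈ E := by
    rw [hE, Finset.mem_sdiff, hO'm]
    exact ⟨hb0C, fun h5 => h5.1 rfl⟩
  have hEc : E.card = Cl.card - (O.card - 1) := by
    rw [hE, Finset.card_sdiff_of_subset hO'C, hO'c]
  -- rounds
  set X : ℕ → Finset V := fun b => if b = b0 then insert (st b0) Y0 else ∅ with hX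
  have hX0 : X b0 = insert (st b0) Y0 := by simp only [hX, if_true]
  have hX1 : ∀ b, b ≠ b0 → X b = ∅ := by
    intro b hb
    simp only [hX, if_neg hb]
  have hX0c : (X b0).card = Y0.card + 1 := by
    rw [hX0, Finset.card_insert_of_notMem hYs]
  have hpar : Even (univ \ X b0).card := by
    rw [Finset.card_sdiff_of_subset (Finset.subset_univ _), Finset.card_univ, hX0c, hY0c]
    obtain ⟨m, hm⟩ := hev
    obtain ⟨a, ha⟩ := even_degsum R
    have e1 := fd_sum h
    have e2 : Fintype.card V * Cl.card = 2 * (m * Cl.card) := by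
      rw [hm]; ring
    rw [ha, e2] at e1
    rw [Nat.even_iff]
    omega
  obtain ⟨M, hM, hMX, -, -⟩ := hCOMP R ⊥ E
    ((Fintype.card V + 1 - Cl.card) + (2 * W.card + 16)) X (fun _ => id) (mts_id R _)
    (fun b _ v hv => absurd rfl hv) (by
      intro b hb
      by_cases hbb : b = b0
      · rw [hbb]
        exact hpar
      · rw [hX1 b hbb, Finset.sdiff_empty, Finset.card_univ]
        exact hev) (by
      intro v
      have e1 := fd_nn h v
      rw [nb_bot, hEc]
      omega) (by
      intro b hb
      have e1 : (univ.filter (fun v : V => (id v : V) ≠ v)).card = 0 := by simp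
      rw [e1]
      by_cases hbb : b = b0
      · rw [hbb, hX0c, hY0c]
        omega
      · rw [hX1 b hbb, Finset.card_empty]
        omega)
  -- the targets
  obtain ⟨T, hT⟩ : ∃ T : Finset V, T = O'.image st := ⟨_, rfl⟩
  have hTm : ∀ v, v ∈ T ↔ ∃ b ∈ O', st b = v := by
    intro v
    rw [hT, Finset.mem_image]
  have hinj' : Set.InjOn st (O' : Set ℕ) := by
    intro b hb b' hb' heq
    exact h.inj ((hO'm b).mp hb).2 ((hO'm b').mp hb').2 heq
  have hTc : T.card = O.card - 1 := by
    rw [hT, Finset.card_image_of_injOn hinj', hO'c]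
  have hTs : st b0 ∉ T := by
    intro h5
    obtain ⟨b, hb, h6⟩ := (hTm _).mp h5
    exact ((hO'm b).mp hb).1 (h.inj ((hO'm b).mp hb).2 hb0 h6)
  have hTi : ∀ v, (if v ∈ O.image st then 1 else 0) =
      (if v ∈ T then 1 else 0) + (if v = st b0 then 1 else 0) := by
    intro v
    by_cases hv : v = st b0
    · have e1 : v ∉ T := by rw [hv]; exact hTs
      rw [if_neg e1, if_pos hv, if_pos]
      rw [hv]
      exact Finset.mem_image_of_mem _ hb0
    · by_cases hvT : v ∈ T
      · rw [if_pos hvT, if_neg hv, if_pos]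
        obtain ⟨b, hb, h6⟩ := (hTm _).mp hvT
        rw [← h6]
        exact Finset.mem_image_of_mem _ ((hO'm b).mp hb).2
      · rw [if_neg hvT, if_neg hv, if_neg]
        intro h5
        obtain ⟨b, hb, h6⟩ := Finset.mem_image.mp h5
        by_cases hbb : b = b0
        · exact hv (by rw [← h6, hbb])
        · exact hvT ((hTm v).mpr ⟨b, (hO'm b).mpr ⟨hbb, hb⟩, h6⟩)
  -- the degrees of the rest
  have hdeg : ∀ v, (nb (rg R E M) v).card + 2 + (if v ∈ T then 1 else 0) =
      O.card + (if v ∈ W then 1 else 0) + (if v ∈ Y0 then 1 else 0) := by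
    intro v
    have e1 := deg_rg hM v
    have e2 : E.filter (fun b => M b v ≠ v) = E.filter (fun b => ¬ v ∈ X b) := by
      refine Finset.filter_congr fun b hb => ?_
      rw [Ne, hMX b hb v]
    have e3 := Finset.card_filter_add_card_filter_not (s := E) (fun b => v ∈ X b)
    have e4 : (E.filter (fun b => v ∈ X b)).card =
        (if v ∈ Y0 then 1 else 0) + (if v = st b0 then 1 else 0) := by
      have e5 : ∀ b ∈ E, v ∈ X b → b = b0 := by
        intro b _ h5
        by_contra hbb
        rw [hX1 b hbb] at h5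
        exact absurd h5 (Finset.notMem_empty v)
      by_cases hv : v ∈ X b0
      · have e6 : E.filter (fun b => v ∈ X b) = {b0} := by
          ext b
          rw [Finset.mem_filter, Finset.mem_singleton]
          constructor
          · rintro ⟨h5, h6⟩
            exact e5 b h5 h6
          · rintro rfl
            exact ⟨hb0E, hv⟩
        rw [e6, Finset.card_singleton]
        rw [hX0, Finset.mem_insert] at hv
        by_cases hvs : v = st b0
        · have e7 : v ∉ Y0 := by rw [hvs]; exact hYs
          rw [if_pos hvs, if_neg e7]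
        · rw [if_neg hvs, if_pos (hv.resolve_left hvs)]
      · have e6 : E.filter (fun b => v ∈ X b) = ∅ := by
          rw [Finset.filter_eq_empty_iff]
          intro b hb h5
          rw [e5 b hb h5] at h5
          exact hv h5
        rw [e6, Finset.card_empty]
        rw [hX0, Finset.mem_insert, not_or] at hv
        rw [if_neg hv.1, if_neg hv.2]
    have e6 := h.deg v
    have e7 := hTi v
    rw [e2] at e1
    rw [e4, hEc] at e3
    rw [e7] at e6
    omega
  -- the new vertices
  obtain ⟨B, hB⟩ : ∃ B : Finset V, B = univ \ (W ∪ Y0) := ⟨_, rfl⟩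
  have hBm : ∀ v, v ∈ B ↔ v ∉ W ∧ v ∉ Y0 := by
    intro v
    rw [hB]
    simp
  have hBc : B.card = O.card - 1 := by
    have e1 : Disjoint W Y0 := by
      rw [Finset.disjoint_left]
      exact fun v hv hv' => hYW v hv' hv
    rw [hB, Finset.card_sdiff_of_subset (Finset.subset_univ _), Finset.card_univ,
      Finset.card_union_of_disjoint e1, hY0c]
    omega
  obtain ⟨TT, hTT⟩ : ∃ TT : Finset (Option V), TT = T.map Function.Embedding.some := ⟨_, rfl⟩
  have hTTm : ∀ x, x ∈ TT ↔ ∃ v ∈ T, some v = x := by
    intro x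
    rw [hTT, Finset.mem_map]
    exact Iff.rfl
  have hTTc : TT.card = O.card - 1 := by rw [hTT, Finset.card_map, hTc]
  obtain ⟨m, hm⟩ := hev
  obtain ⟨G2, hG2⟩ : ∃ G2 : SimpleGraph (Option (Option V)),
      G2 = ext1 (ext1 (rg R E M) B) TT := ⟨_, rfl⟩
  obtain ⟨t0, ht0⟩ := hD G2 (O.card - 1) (m + 1)
    O' (by rw [Fintype.card_option, Fintype.card_option]; omega) (by
      intro x
      rw [hG2]
      cases x with
      | none => rw [nb_ext1_none, hTTc]
      | some x =>
        rw [nb_ext1_some]
        cases x with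
        | none =>
          have e1 : (none : Option V) ∉ TT := by
            intro h5
            obtain ⟨v, -, h6⟩ := (hTTm _).mp h5
            exact Option.some_ne_none v h6
          rw [nb_ext1_none, hBc, if_neg e1, add_zero]
        | some v =>
          rw [nb_ext1_some]
          have e0 : (some v : Option V) ∈ TT ↔ v ∈ T := by
            rw [hTTm]
            constructor
            · rintro ⟨w, hw, h6⟩
              rw [← Option.some_injective V h6]
              exact hw
            · intro h5
              exact ⟨v, h5, rfl⟩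
          have e1 := hdeg v
          have e2 := hBm v
          have e6 : ((nb (rg R E M) v).card + if v ∈ B then 1 else 0) +
              (if v ∈ T then 1 else 0) = O.card - 1 := by
            by_cases hvW : v ∈ W
            · have e3 : v ∉ Y0 := fun h5 => hYW v h5 hvW
              have e4 : v ∉ B := fun h5 => (e2.mp h5).1 hvW
              rw [if_pos hvW, if_neg e3] at e1
              rw [if_neg e4]
              omega
            · by_cases hvY : v ∈ Y0
              · have e4 : v ∉ B := fun h5 => (e2.mp h5).2 hvY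
                rw [if_neg hvW, if_pos hvY] at e1
                rw [if_neg e4]
                omega
              · rw [if_neg hvW, if_neg hvY] at e1
                rw [if_pos (e2.mpr ⟨hvW, hvY⟩)]
                omega
          by_cases h5 : v ∈ T
          · rw [if_pos h5] at e6
            rw [if_pos (e0.mpr h5)]
            exact e6
          · rw [if_neg h5] at e6
            rw [if_neg (fun h6 => h5 (e0.mp h6))]
            exact e6) (by
      norm_num
      omega) hO'c
  -- prescribed colours at the first new vertex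
  obtain ⟨g, hg⟩ : ∃ g : V → ℕ, ∀ b ∈ O', g (st b) = b :=
    ⟨Function.invFunOn st (O' : Set ℕ), fun b hb => hinj'.leftInvOn_invFunOn hb⟩
  obtain ⟨c, hc⟩ : ∃ c : Option (Option V) → ℕ, ∀ v, c (some (some v)) = g v :=
    ⟨fun x => match x with
      | some (some v) => g v
      | some none => 0
      | none => 0, fun v => rfl⟩
  have hnbn : ∀ x ∈ nb G2 none, ∃ b ∈ O', x = some (some (st b)) := by
    intro x hx
    rw [mem_nb, hG2] at hx
    cases x with
    | none => exact absurd hx (by simp)
    | some x =>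
      rw [ext1_ns, hTTm] at hx
      obtain ⟨v, hv, rfl⟩ := hx
      obtain ⟨b, hb, rfl⟩ := (hTm v).mp hv
      exact ⟨b, hb, rfl⟩
  obtain ⟨t1, ht1, ht1c⟩ := hS G2 O' t0 none c ht0 (by
      intro x hx
      obtain ⟨b, hb, rfl⟩ := hnbn x hx
      rw [hc, hg b hb]
      exact hb) (by
      intro x hx y hy hxy
      obtain ⟨b, hb, rfl⟩ := hnbn x hx
      obtain ⟨b', hb', rfl⟩ := hnbn y hy
      rw [hc, hc, hg b hb, hg b' hb'] at hxy
      rw [hxy])
  rw [hG2] at ht1 ht1c
  have ht2 := pec_ext1 (pec_ext1 ht1)
  have hd : Disjoint E O' := by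
    rw [hE]
    exact Finset.sdiff_disjoint
  obtain ⟨t, ht, htt⟩ := glue hM ht2 hd
  rw [hE, Finset.sdiff_union_of_subset hO'C] at ht
  refine ⟨t, ht, ?_⟩
  intro b hb w hw heq
  by_cases hbb : b = b0
  · rcases htt (st b) w hw with ⟨b', hb', h5, h6⟩ | ⟨h5, h6⟩
    · have h7 : b' = b := by rw [← h6]; exact heq
      rw [h7, hbb] at h5
      have h8 : M b0 (st b0) = st b0 := by
        rw [hMX b0 hb0E, hX0]
        exact Finset.mem_insert_self _ _
      rw [h8] at h5
      rw [hbb, h5] at hw
      exact R.loopless.irrefl w hw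
    · have h7 := ht2.mem (st b) w h5
      rw [← h6, heq] at h7
      exact ((hO'm b).mp h7).1 hbb
  · have hbO' : b ∈ O' := (hO'm b).mpr ⟨hbb, hb⟩
    rcases htt (st b) w hw with ⟨b', hb', h5, h6⟩ | ⟨h5, h6⟩
    · have h7 : b' = b := by rw [← h6]; exact heq
      rw [h7, hE] at hb'
      exact (Finset.mem_sdiff.mp hb').2 hbO'
    · have h8 : some (st b) ∈ TT := (hTTm _).mpr ⟨st b, (hTm _).mpr ⟨b, hbO', rfl⟩, rfl⟩
      have h9 : (ext1 (ext1 (rg R E M) B) TT).Adj none (some (some (st b))) :=
        (ext1_ns _ _ _).mpr h8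
      have h10 := ht1c (some (some (st b))) (by rw [mem_nb]; exact h9)
      rw [hc, hg b hbO', ht1.sym] at h10
      have h11 := ht1.inj (some (some (st b))) (x₁ := none) (x₂ := some (some w))
        (by rw [Finset.mem_coe, mem_nb]; exact h9.symm)
        (by
          rw [Finset.mem_coe, mem_nb]
          exact (ext1_ss _ _ _ _).mpr ((ext1_ss _ _ _ _).mpr h5)) (h10.trans (heq.symm.trans h6))
      exact Option.some_ne_none _ h11.symm

end Pool.Agent.Work.MP_db9399_lt.helper21
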