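import Pool.Agent.Work.MP_db9399_lt_helper21.Ext

/-!
# MP_db9399, THEOREM LT, block FINBO: the last stage, odd order, few right colours
-/

set_option autoImplicit false

namespace Pool.Agent.Work.MP_db9399_lt.helper21

open Finset Classical
open Pool.Agent.Work.MP_db9399_all (nb)
open Pool.Agent.Work.MP_db9399_nc (nn PEC Mts mem_nb mem_nn)

universe u

theorem stmt_FINBO (hCOMP : Pool.Agent.Work.MP_db9399_nc.Stmt_COMP.{u}) (hD : Stmt_DENSE.{u}) :
    Stmt_FINBO.{u} := by
  intro V _ R Cl O st W h hodd hO hle
  obtain ⟨h1, h2, h3⟩ := fd_num h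
  norm_num at h2 h3
  have hOCl : O.card ≤ Cl.card := Finset.card_le_card h.OC
  have hClO : (Cl \ O).Nonempty := by
    rw [← Finset.card_pos, Finset.card_sdiff_of_subset h.OC]
    omega
  obtain ⟨b1, hb1⟩ := hClO
  rw [Finset.mem_sdiff] at hb1
  obtain ⟨hb1C, hb1O⟩ := hb1
  have hWn : W.card ≤ Fintype.card V := Finset.card_le_univ W
  have hY : ∃ Y0 ⊆ univ \ W, Y0.card = Fintype.card V + O.card + 1 - Cl.card - W.card := by
    refine Finset.exists_subset_card_eq ?_
    rw [Finset.card_sdiff_of_subset (Finset.subset_univ _), Finset.card_univ]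
    omega
  obtain ⟨Y0, hY0, hY0c⟩ := hY
  have hYW : ∀ v ∈ Y0, v ∉ W := fun v hv => (Finset.mem_sdiff.mp (hY0 hv)).2
  -- rounds
  set X : ℕ → Finset V := fun b => if b = b1 then Y0 else {st b} with hX
  have hX1 : X b1 = Y0 := by simp only [hX, if_true]
  have hXO : ∀ b ∈ O, X b = {st b} := by
    intro b hb
    have : b ≠ b1 := fun h => hb1O (h ▸ hb)
    simp only [hX, if_neg this]
  have hEc : (insert b1 O).card = O.card + 1 := Finset.card_insert_of_notMem hb1O
  have hpar : Even (univ \ Y0).card := by
    rw [Finset.card_sdiff_of_subset (Finset.subset_univ _), Finset.card_univ, hY0c]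
    obtain ⟨m, hm⟩ := hodd
    obtain ⟨a, ha⟩ := even_degsum R
    have e1 := fd_sum h
    have e2 : Fintype.card V * Cl.card = 2 * (m * Cl.card) + Cl.card := by
      rw [hm]; ring
    rw [ha, e2] at e1
    rw [Nat.even_iff]
    omega
  obtain ⟨M, hM, hMX, -, -⟩ := hCOMP R ⊥ (insert b1 O)
    ((Fintype.card V + 1 - Cl.card) + (2 * W.card + 16)) X (fun _ => id) (mts_id R _)
    (fun b _ v hv => absurd rfl hv) (by
      intro b hb
      rcases Finset.mem_insert.mp hb with rfl | hb
      · rw [hX1]
        exact hpar
      · rw [hXO b hb, Finset.card_sdiff_of_subset (Finset.subset_univ _), Finset.card_univ,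
          Finset.card_singleton]
        obtain ⟨m, hm⟩ := hodd
        exact ⟨m, by omega⟩) (by
      intro v
      have e1 := fd_nn h v
      rw [nb_bot, hEc]
      omega) (by
      intro b hb
      have e1 : (univ.filter (fun v : V => (id v : V) ≠ v)).card = 0 := by simp
      rw [e1]
      rcases Finset.mem_insert.mp hb with rfl | hb
      · rw [hX1, hY0c]
        omega
      · rw [hXO b hb, Finset.card_singleton]
        omega)
  -- the degrees of the rest
  have hdeg : ∀ v, (nb (rg R (insert b1 O) M) v).card + O.card + 2 =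
      Cl.card + (if v ∈ W then 1 else 0) + (if v ∈ Y0 then 1 else 0) := by
    intro v
    have e1 := deg_rg hM v
    have e2 : (insert b1 O).filter (fun b => M b v ≠ v) =
        (insert b1 O).filter (fun b => ¬ v ∈ X b) := by
      refine Finset.filter_congr fun b hb => ?_
      rw [Ne, hMX b hb v]
    have e3 := Finset.card_filter_add_card_filter_not (s := insert b1 O) (fun b => v ∈ X b)
    have e4 : ((insert b1 O).filter (fun b => v ∈ X b)).card =
        (if v ∈ Y0 then 1 else 0) + (if v ∈ O.image st then 1 else 0) := by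
      have e5 : (O.filter (fun b => v ∈ X b)).card = if v ∈ O.image st then 1 else 0 := by
        by_cases hv : v ∈ O.image st
        · rw [if_pos hv]
          obtain ⟨b, hb, hbv⟩ := Finset.mem_image.mp hv
          rw [Finset.card_eq_one]
          refine ⟨b, ?_⟩
          ext b'
          rw [Finset.mem_filter, Finset.mem_singleton]
          constructor
          · rintro ⟨hb', h5⟩
            rw [hXO b' hb', Finset.mem_singleton] at h5
            exact h.inj hb' hb (by rw [hbv, ← h5])
          · rintro rfl
            refine ⟨hb, ?_⟩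
            rw [hXO b' hb, Finset.mem_singleton, hbv]
        · rw [if_neg hv, Finset.card_eq_zero, Finset.filter_eq_empty_iff]
          intro b hb h5
          rw [hXO b hb, Finset.mem_singleton] at h5
          exact hv (Finset.mem_image.mpr ⟨b, hb, h5.symm⟩)
      rw [Finset.filter_insert]
      by_cases hv : v ∈ Y0
      · rw [if_pos (by rw [hX1]; exact hv), if_pos hv, Finset.card_insert_of_notMem, e5]
        · omega
        · rw [Finset.mem_filter]
          exact fun h5 => hb1O h5.1
      · rw [if_neg (by rw [hX1]; exact hv), if_neg hv, e5]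
        omega
    have e6 := h.deg v
    rw [e2] at e1
    rw [e4, hEc] at e3
    omega
  -- the new vertex
  obtain ⟨B, hB⟩ : ∃ B : Finset V, B = univ \ (W ∪ Y0) := ⟨_, rfl⟩
  have hBm : ∀ v, v ∈ B ↔ v ∉ W ∧ v ∉ Y0 := by
    intro v
    rw [hB]
    simp
  have hBc : B.card = Cl.card - (O.card + 1) := by
    have e1 : Disjoint W Y0 := by
      rw [Finset.disjoint_left]
      exact fun v hv hv' => hYW v hv' hv
    rw [hB, Finset.card_sdiff_of_subset (Finset.subset_univ _), Finset.card_univ,
      Finset.card_union_of_disjoint e1, hY0c]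
    omega
  have hECl : insert b1 O ⊆ Cl := Finset.insert_subset hb1C h.OC
  obtain ⟨m, hm⟩ := hodd
  obtain ⟨t0, ht0⟩ := hD (ext1 (rg R (insert b1 O) M) B) (Cl.card - (O.card + 1)) (m + 1)
    (Cl \ insert b1 O) (by rw [Fintype.card_option]; omega) (by
      intro x
      cases x with
      | none => rw [nb_ext1_none, hBc]
      | some v =>
        rw [nb_ext1_some]
        have e1 := hdeg v
        have e2 := hBm v
        by_cases hvW : v ∈ W
        · have e3 : v ∉ Y0 := fun h5 => hYW v h5 hvW
          have e4 : v ∉ B := fun h5 => (e2.mp h5).1 hvW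
          rw [if_pos hvW, if_neg e3] at e1
          rw [if_neg e4]
          omega
        · by_cases hvY : v ∈ Y0
          · have e4 : v ∉ B := fun h5 => (e2.mp h5).2 hvY
            rw [if_neg hvW, if_pos hvY] at e1
            rw [if_neg e4]
            omega
          · rw [if_neg hvW, if_neg hvY] at e1
            rw [if_pos (e2.mpr ⟨hvW, hvY⟩)]
            omega) (by
      norm_num
      omega) (by
      rw [Finset.card_sdiff_of_subset hECl, hEc])
  obtain ⟨t, ht, htt⟩ := glue hM (pec_ext1 ht0) Finset.disjoint_sdiff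
  rw [Finset.union_sdiff_of_subset hECl] at ht
  refine ⟨t, ht, ?_⟩
  intro b hb w hw heq
  have hbE : b ∈ insert b1 O := Finset.mem_insert_of_mem hb
  rcases htt (st b) w hw with ⟨b', hb', h5, h6⟩ | ⟨h5, h6⟩
  · have h7 : b' = b := by rw [← h6]; exact heq
    rw [h7] at h5
    have h8 : M b (st b) = st b := by
      rw [hMX b hbE, hXO b hb]
      exact Finset.mem_singleton_self _
    rw [h8] at h5
    exact R.loopless.irrefl w (by rw [h5] at hw; exact hw)
  · have h7 := (pec_ext1 ht0).mem (st b) w h5
    rw [← h6, heq] at h7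
    exact (Finset.mem_sdiff.mp h7).2 hbE

end Pool.Agent.Work.MP_db9399_lt.helper21
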