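import Pool.Agent.Work.MP_db9399_lt.Base

/-!
# MP_db9399, THEOREM LT: edges which are not in given matchings, gluing of colourings
-/

set_option autoImplicit false

namespace Pool.Agent.Work.MP_db9399_lt.helper21

open Finset Classical
open Pool.Agent.Work.MP_db9399_all (nb)
open Pool.Agent.Work.MP_db9399_nc (nn PEC Mts mem_nb mem_nn)

universe u

variable {V : Type u} [Fintype V]

/-- the graph of the edges of `G` which are in no matching -/
def rg (G : SimpleGraph V) (E : Finset ℕ) (M : ℕ → V → V) : SimpleGraph V where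
  Adj v w := G.Adj v w ∧ ∀ b ∈ E, M b v ≠ w ∧ M b w ≠ v
  symm := ⟨fun _ _ h => ⟨h.1.symm, fun b hb => ⟨(h.2 b hb).2, (h.2 b hb).1⟩⟩⟩
  loopless := ⟨fun v h => G.loopless.irrefl v h.1⟩

theorem rg_adj {G : SimpleGraph V} {E : Finset ℕ} {M : ℕ → V → V} (h : Mts G E M) (v w : V) :
    (rg G E M).Adj v w ↔ G.Adj v w ∧ ∀ b ∈ E, M b v ≠ w := by
  constructor
  · rintro ⟨h1, h2⟩
    exact ⟨h1, fun b hb => (h2 b hb).1⟩
  · rintro ⟨h1, h2⟩
    refine ⟨h1, fun b hb => ⟨h2 b hb, fun h3 => h2 b hb ?_⟩⟩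
    rw [← h3]
    exact h.inv b hb w

theorem deg_rg {G : SimpleGraph V} {E : Finset ℕ} {M : ℕ → V → V} (h : Mts G E M) (v : V) :
    (nb (rg G E M) v).card + (E.filter (fun b => M b v ≠ v)).card = (nb G v).card := by
  have h1 : nb G v = nb (rg G E M) v ∪ (E.filter (fun b => M b v ≠ v)).image (fun b => M b v) := by
    ext w
    rw [Finset.mem_union, mem_nb, mem_nb, rg_adj h, Finset.mem_image]
    constructor
    · intro hw
      by_cases h2 : ∀ b ∈ E, M b v ≠ w
      · exact Or.inl ⟨hw, h2⟩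
      · push Not at h2
        obtain ⟨b, hb, h3⟩ := h2
        refine Or.inr ⟨b, Finset.mem_filter.mpr ⟨hb, ?_⟩, h3⟩
        rw [h3]
        exact fun h4 => G.loopless.irrefl v (h4 ▸ hw)
    · rintro (hw | ⟨b, hb, h3⟩)
      · exact hw.1
      · rw [Finset.mem_filter] at hb
        rw [← h3]
        exact h.adj b hb.1 v hb.2
  have h2 : Disjoint (nb (rg G E M) v)
      ((E.filter (fun b => M b v ≠ v)).image (fun b => M b v)) := by
    rw [Finset.disjoint_left]
    intro w hw hw'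
    rw [mem_nb, rg_adj h] at hw
    rw [Finset.mem_image] at hw'
    obtain ⟨b, hb, h3⟩ := hw'
    rw [Finset.mem_filter] at hb
    exact hw.2 b hb.1 h3
  have h3 : ((E.filter (fun b => M b v ≠ v)).image (fun b => M b v)).card =
      (E.filter (fun b => M b v ≠ v)).card := by
    refine Finset.card_image_of_injOn ?_
    intro b hb b' hb' hbb
    rw [Finset.mem_coe, Finset.mem_filter] at hb hb'
    by_contra hne
    exact h.dis b hb.1 b' hb'.1 hne v hb.2 hbb
  rw [h1, Finset.card_union_of_disjoint h2, h3]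

theorem glue {G : SimpleGraph V} {E C' : Finset ℕ} {M : ℕ → V → V} {t' : V → V → ℕ}
    (h : Mts G E M) (ht : PEC (rg G E M) C' t') (hd : Disjoint E C') :
    ∃ t : V → V → ℕ, PEC G (E ∪ C') t ∧ ∀ v w, G.Adj v w →
      (∃ b ∈ E, M b v = w ∧ t v w = b) ∨ ((rg G E M).Adj v w ∧ t v w = t' v w) := by
  have huniq : ∀ v w b b', v ≠ w → b ∈ E → b' ∈ E → M b v = w → M b' v = w → b = b' := by
    intro v w b b' hvw hb hb' h1 h2
    by_contra hne
    exact h.dis b hb b' hb' hne v (by rw [h1]; exact hvw.symm) (h1.trans h2.symm)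
  obtain ⟨t, ht1, ht2⟩ : ∃ t : V → V → ℕ, (∀ v w b, b ∈ E → M b v = w → v ≠ w → t v w = b) ∧
      ∀ v w, (¬ (v ≠ w ∧ ∃ b ∈ E, M b v = w)) → t v w = t' v w := by
    refine ⟨fun v w => if hh : v ≠ w ∧ ∃ b ∈ E, M b v = w then hh.2.choose else t' v w, ?_, ?_⟩
    · intro v w b hb h1 h2
      have hh : v ≠ w ∧ ∃ b ∈ E, M b v = w := ⟨h2, b, hb, h1⟩
      show (if hh : v ≠ w ∧ ∃ b ∈ E, M b v = w then hh.2.choose else t' v w) = b
      rw [dif_pos hh]
      exact huniq v w _ b h2 hh.2.choose_spec.1 hb hh.2.choose_spec.2 h1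
    · intro v w hh
      show (if hh : v ≠ w ∧ ∃ b ∈ E, M b v = w then hh.2.choose else t' v w) = t' v w
      rw [dif_neg hh]
  have hcase : ∀ v w, G.Adj v w →
      (∃ b ∈ E, M b v = w ∧ t v w = b) ∨ ((rg G E M).Adj v w ∧ t v w = t' v w) := by
    intro v w hvw
    have hne : v ≠ w := hvw.ne
    by_cases hh : ∃ b ∈ E, M b v = w
    · obtain ⟨b, hb, h1⟩ := hh
      exact Or.inl ⟨b, hb, h1, ht1 v w b hb h1 hne⟩
    · refine Or.inr ⟨(rg_adj h v w).mpr ⟨hvw, fun b hb h1 => hh ⟨b, hb, h1⟩⟩, ?_⟩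
      exact ht2 v w (fun h1 => hh h1.2)
  refine ⟨t, ⟨?_, ?_, ?_⟩, hcase⟩
  · intro v w
    by_cases hh : v ≠ w ∧ ∃ b ∈ E, M b v = w
    · obtain ⟨hne, b, hb, h1⟩ := hh
      rw [ht1 v w b hb h1 hne, ht1 w v b hb (by rw [← h1]; exact h.inv b hb v) hne.symm]
    · rw [ht2 v w hh, ht2 w v, ht.sym]
      rintro ⟨hne, b, hb, h1⟩
      exact hh ⟨hne.symm, b, hb, by rw [← h1]; exact h.inv b hb w⟩
  · intro v w hvw
    rcases hcase v w hvw with ⟨b, hb, -, h2⟩ | ⟨h1, h2⟩
    · rw [h2]; exact Finset.mem_union_left _ hb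
    · rw [h2]; exact Finset.mem_union_right _ (ht.mem v w h1)
  · intro v w hw w' hw' heq
    rw [Finset.mem_coe, mem_nb] at hw hw'
    rcases hcase v w hw with ⟨b, hb, h1, h2⟩ | ⟨h1, h2⟩
    · rcases hcase v w' hw' with ⟨b', hb', h1', h2'⟩ | ⟨h1', h2'⟩
      · have h3 : b = b' := by rw [← h2, ← h2']; exact heq
        rw [← h1, ← h1', h3]
      · exfalso
        have h3 : b = t' v w' := by rw [← h2, ← h2']; exact heq
        exact Finset.disjoint_left.mp hd hb (h3 ▸ ht.mem v w' h1')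
    · rcases hcase v w' hw' with ⟨b', hb', h1', h2'⟩ | ⟨h1', h2'⟩
      · exfalso
        have h3 : b' = t' v w := by rw [← h2, ← h2']; exact heq.symm
        exact Finset.disjoint_left.mp hd hb' (h3 ▸ ht.mem v w h1)
      · refine ht.inj v ?_ ?_ ?_
        · rw [Finset.mem_coe, mem_nb]; exact h1
        · rw [Finset.mem_coe, mem_nb]; exact h1'
        · rw [← h2, ← h2']; exact heq

/-- the union of two families of matchings -/
theorem mts_union {G : SimpleGraph V} {E P : Finset ℕ} {M N : ℕ → V → V} (hM : Mts G E M)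
    (hN : Mts G P N) (hx : ∀ b ∈ E, ∀ b' ∈ P, ∀ v, M b v ≠ v → M b v ≠ N b' v) :
    Mts G (E ∪ P) (fun b => if b ∈ E then M b else N b) := by
  have hmem : ∀ b ∈ E ∪ P, b ∉ E → b ∈ P := by
    intro b hb hbE
    rcases Finset.mem_union.mp hb with h | h
    · exact absurd h hbE
    · exact h
  refine ⟨?_, ?_, ?_⟩
  · intro b hb v
    by_cases hbE : b ∈ E
    · simp only [if_pos hbE]
      exact hM.inv b hbE v
    · simp only [if_neg hbE]
      exact hN.inv b (hmem b hb hbE) v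
  · intro b hb v
    by_cases hbE : b ∈ E
    · simp only [if_pos hbE]
      exact hM.adj b hbE v
    · simp only [if_neg hbE]
      exact hN.adj b (hmem b hb hbE) v
  · intro b hb b' hb' hne v
    by_cases hbE : b ∈ E
    · by_cases hbE' : b' ∈ E
      · simp only [if_pos hbE, if_pos hbE']
        exact hM.dis b hbE b' hbE' hne v
      · simp only [if_pos hbE, if_neg hbE']
        exact hx b hbE b' (hmem b' hb' hbE') v
    · by_cases hbE' : b' ∈ E
      · simp only [if_neg hbE, if_pos hbE']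
        intro h1 h2
        refine hx b' hbE' b (hmem b hb hbE) v ?_ h2.symm
        rw [← h2]
        exact h1
      · simp only [if_neg hbE, if_neg hbE']
        exact hN.dis b (hmem b hb hbE) b' (hmem b' hb' hbE') hne v

end Pool.Agent.Work.MP_db9399_lt.helper21
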